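import Mathlib

set_option autoImplicit false
set_option linter.unusedSectionVars false
set_option linter.unnecessarySimpa false

/-!
MP_d14c4c_al.  Commutator width and normal subgroups generated by pairwise commuting subgroups
which are permuted by conjugation.

Idea of the proof.  Let `gs` be a finite list of elements which generate `E` modulo `N`, and `D h`
the product of the commutators `[h t, t]`, `t` in `gs`, where the values of `h` are in `N`.
A commutator of the factor `L x` (a chip at the place `x`) standing at the left of `D h` can be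
exchanged for a chip at the place `t • x` (or `t⁻¹ • x`) by changing one value of `h` (`Q_move`),
for every `h`.  Hence chips can be moved along orbits without any cost, and if the orbits are
infinite they can be moved to different places, where their product is one commutator
(`merge_one`).
-/

namespace Pool.Agent.CC49

open scoped commutatorElement

variable {E X : Type*} [Group E] [MulAction E X]

/-- `g` is a product of at most `r` commutators of elements of the subgroup `H`. -/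
def ProdComm (H : Subgroup E) (r : ℕ) (g : E) : Prop :=
  ∃ l : List (E × E), l.length ≤ r ∧ (∀ p ∈ l, p.1 ∈ H ∧ p.2 ∈ H) ∧
    g = (l.map fun p => ⁅p.1, p.2⁆).prod

lemma ProdComm.mul {H : Subgroup E} {r s : ℕ} {g h : E} (hg : ProdComm H r g)
    (hh : ProdComm H s h) : ProdComm H (r + s) (g * h) := by
  obtain ⟨l, hl, hm, rfl⟩ := hg
  obtain ⟨l', hl', hm', rfl⟩ := hh
  refine ⟨l ++ l', by simp; omega, ?_, by simp⟩
  intro p hp
  rcases List.mem_append.1 hp with h | h
  · exact hm p h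
  · exact hm' p h

/-- chips at the place `x`: commutators of elements of `L x` -/
def Ch (L : X → Subgroup E) (x : X) : Set E := {z | ∃ a ∈ L x, ∃ b ∈ L x, z = ⁅a, b⁆}

/-- products `z_n ⋯ z_1` with `z_i ∈ Sg x_i`, `xs = [x_1, …, x_n]` -/
def R (Sg : X → Set E) : List X → E → Prop
  | [], g => g = 1
  | x :: xs, g => ∃ z ∈ Sg x, ∃ g', R Sg xs g' ∧ g = g' * z

/-- the product of the commutators `[h t, t]` -/
def D (gs : List E) (h : E → E) : E := (gs.map fun t => ⁅h t, t⁆).prod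

section perm

variable {Sg : X → Set E}

omit [MulAction E X] in
lemma R_perm (hS : ∀ x, ∀ z ∈ Sg x, ∀ y, ∀ w ∈ Sg y, w * z * w⁻¹ ∈ Sg x)
    {xs ys : List X} (hp : xs.Perm ys) : ∀ g, R Sg xs g → R Sg ys g := by
  induction hp with
  | nil => exact fun g h => h
  | cons x _ ih =>
    rintro g ⟨z, hz, g', hg', rfl⟩
    exact ⟨z, hz, g', ih g' hg', rfl⟩
  | swap x y l =>
    rintro g ⟨z, hz, g', ⟨w, hw, g'', hg'', rfl⟩, rfl⟩
    exact ⟨w, hw, g'' * (w * z * w⁻¹), ⟨w * z * w⁻¹, hS y z hz x w hw, g'', hg'', rfl⟩, by group⟩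
  | trans _ _ ih1 ih2 => exact fun g h => ih2 g (ih1 g h)

end perm

section main

variable {L : X → Subgroup E}

/-- the normal subgroup generated by all factors -/
def NN (L : X → Subgroup E) : Subgroup E := ⨆ x, L x

lemma le_NN (x : X) : L x ≤ NN L := le_iSup L x

lemma NN_conj (hconj : ∀ (g : E) (x : X) (a : E), a ∈ L x → g * a * g⁻¹ ∈ L (g • x))
    (g : E) {n : E} (hn : n ∈ NN L) : g * n * g⁻¹ ∈ NN L := by
  refine Subgroup.iSup_induction (C := fun n => g * n * g⁻¹ ∈ NN L) L hn ?_ ?_ ?_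
  · intro x a ha
    exact le_NN _ (hconj g x a ha)
  · simpa using (NN L).one_mem
  · intro a b ha hb
    have : g * (a * b) * g⁻¹ = (g * a * g⁻¹) * (g * b * g⁻¹) := by group
    rw [this]
    exact (NN L).mul_mem ha hb

lemma NN_stab (hcomm : ∀ x y, x ≠ y → ∀ a ∈ L x, ∀ b ∈ L y, a * b = b * a)
    {n : E} (hn : n ∈ NN L) (x : X) {a : E} (ha : a ∈ L x) : n * a * n⁻¹ ∈ L x := by
  revert a
  refine Subgroup.iSup_induction (C := fun n => ∀ {a : E}, a ∈ L x → n * a * n⁻¹ ∈ L x) L hn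
    ?_ ?_ ?_
  · intro y b hb a ha
    by_cases hxy : x = y
    · subst hxy
      exact (L x).mul_mem ((L x).mul_mem hb ha) ((L x).inv_mem hb)
    · have := hcomm x y hxy a ha b hb
      rw [← this]
      simpa using ha
  · intro a ha
    simpa using ha
  · intro b c hb hc a ha
    have : b * c * a * (b * c)⁻¹ = b * (c * a * c⁻¹) * b⁻¹ := by group
    rw [this]
    exact hb (hc ha)

lemma Ch_sub {x : X} {z : E} (hz : z ∈ Ch L x) : z ∈ L x := by
  obtain ⟨a, ha, b, hb, rfl⟩ := hz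
  rw [commutatorElement_def]
  exact (L x).mul_mem ((L x).mul_mem ((L x).mul_mem ha hb) ((L x).inv_mem ha)) ((L x).inv_mem hb)

lemma Ch_inv {x : X} {z : E} (hz : z ∈ Ch L x) : z⁻¹ ∈ Ch L x := by
  obtain ⟨a, ha, b, hb, rfl⟩ := hz
  exact ⟨b, hb, a, ha, commutatorElement_inv a b⟩

lemma conj_comm (g a b : E) : g * ⁅a, b⁆ * g⁻¹ = ⁅g * a * g⁻¹, g * b * g⁻¹⁆ := by
  simp only [commutatorElement_def]; group

lemma Ch_stab (hcomm : ∀ x y, x ≠ y → ∀ a ∈ L x, ∀ b ∈ L y, a * b = b * a)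
    {n : E} (hn : n ∈ NN L) (x : X) {z : E} (hz : z ∈ Ch L x) : n * z * n⁻¹ ∈ Ch L x := by
  obtain ⟨a, ha, b, hb, rfl⟩ := hz
  exact ⟨_, NN_stab hcomm hn x ha, _, NN_stab hcomm hn x hb, conj_comm n a b⟩

lemma Ch_conj (hconj : ∀ (g : E) (x : X) (a : E), a ∈ L x → g * a * g⁻¹ ∈ L (g • x))
    (g : E) (x : X) {z : E} (hz : z ∈ Ch L x) : g * z * g⁻¹ ∈ Ch L (g • x) := by
  obtain ⟨a, ha, b, hb, rfl⟩ := hz
  exact ⟨_, hconj g x a ha, _, hconj g x b hb, conj_comm g a b⟩

lemma comm_mem_NN (hconj : ∀ (g : E) (x : X) (a : E), a ∈ L x → g * a * g⁻¹ ∈ L (g • x))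
    {n : E} (hn : n ∈ NN L) (g : E) : ⁅n, g⁆ ∈ NN L := by
  have : ⁅n, g⁆ = n * (g * n⁻¹ * g⁻¹) := by simp only [commutatorElement_def]; group
  rw [this]
  exact (NN L).mul_mem hn (NN_conj hconj g ((NN L).inv_mem hn))

lemma D_mem_NN (hconj : ∀ (g : E) (x : X) (a : E), a ∈ L x → g * a * g⁻¹ ∈ L (g • x))
    (gs : List E) (h : E → E) (hh : ∀ t, h t ∈ NN L) : D gs h ∈ NN L := by
  unfold D
  apply Subgroup.list_prod_mem
  intro y hy
  obtain ⟨t, _, rfl⟩ := List.mem_map.1 hy
  exact comm_mem_NN hconj (hh t) t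

/-- the transfer of an element of one factor to a neighbouring factor -/
lemma transfer (hconj : ∀ (g : E) (x : X) (a : E), a ∈ L x → g * a * g⁻¹ ∈ L (g • x))
    (hcomm : ∀ x y, x ≠ y → ∀ a ∈ L x, ∀ b ∈ L y, a * b = b * a)
    {gs : List E} (hnd : gs.Nodup) {t : E} (ht : t ∈ gs) (h : E → E) (hh : ∀ t, h t ∈ NN L) :
    ∃ n ∈ NN L, ∀ x, ∀ v ∈ L x, ∃ h' : E → E, (∀ t, h' t ∈ NN L) ∧
      D gs h = ((n * t * n⁻¹) * v * (n * t * n⁻¹)⁻¹) * v⁻¹ * D gs h' := by
  classical
  obtain ⟨l1, l2, rfl⟩ := List.append_of_mem ht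
  rw [List.nodup_append] at hnd
  obtain ⟨h1, h2, h3⟩ := hnd
  have ht1 : t ∉ l1 := fun h => h3 t h t (by simp) rfl
  have ht2 : t ∉ l2 := (List.nodup_cons.1 h2).1
  have hA : D l1 h ∈ NN L := D_mem_NN hconj l1 h hh
  set A := D l1 h with hAdef
  refine ⟨A * h t, (NN L).mul_mem hA (hh t), ?_⟩
  intro x v hv
  set u := (A * h t)⁻¹ * v * (A * h t) with hu
  have huL : u ∈ L x := by
    have := NN_stab hcomm ((NN L).inv_mem ((NN L).mul_mem hA (hh t))) x hv
    simpa [hu] using this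
  refine ⟨Function.update h t (h t * u), ?_, ?_⟩
  · intro s
    by_cases hs : s = t
    · subst hs
      simpa using (NN L).mul_mem (hh s) (le_NN x huL)
    · simpa [Function.update_of_ne hs] using hh s
  · have e1 : ∀ l : List E, t ∉ l → D l (Function.update h t (h t * u)) = D l h := by
      intro l hl
      unfold D
      congr 1
      apply List.map_congr_left
      intro s hs
      have : s ≠ t := fun e => hl (e ▸ hs)
      rw [Function.update_of_ne this]
    have e2 : ∀ k : E → E, D (l1 ++ t :: l2) k = D l1 k * (⁅k t, t⁆ * D l2 k) := by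
      intro k
      simp [D]
    rw [e2, e2, e1 l1 ht1, e1 l2 ht2, Function.update_self, ← hAdef, hu]
    simp only [commutatorElement_def]
    group

/-- `f` is a product of chips at the places `xs` times `D gs h` -/
def Q (L : X → Subgroup E) (gs : List E) (f : E) (xs : List X) : Prop :=
  ∃ h : E → E, (∀ t, h t ∈ NN L) ∧ ∃ g, R (Ch L) xs g ∧ f = g * D gs h

lemma Q_perm (hcomm : ∀ x y, x ≠ y → ∀ a ∈ L x, ∀ b ∈ L y, a * b = b * a)
    {gs : List E} {f : E} {xs ys : List X} (hp : xs.Perm ys) (hQ : Q L gs f xs) :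
    Q L gs f ys := by
  obtain ⟨h, hh, g, hg, rfl⟩ := hQ
  refine ⟨h, hh, g, R_perm ?_ hp g hg, rfl⟩
  intro x z hz y w hw
  exact Ch_stab hcomm (le_NN y (Ch_sub hw)) x hz

lemma Q_move (hconj : ∀ (g : E) (x : X) (a : E), a ∈ L x → g * a * g⁻¹ ∈ L (g • x))
    (hcomm : ∀ x y, x ≠ y → ∀ a ∈ L x, ∀ b ∈ L y, a * b = b * a)
    {gs : List E} (hnd : gs.Nodup) {t : E} (ht : t ∈ gs) {f : E} {x : X} {xs : List X} :
    Q L gs f (x :: xs) ↔ Q L gs f (t • x :: xs) := by
  constructor
  · rintro ⟨h, hh, g, ⟨z, hz, g', hg', rfl⟩, rfl⟩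
    obtain ⟨n, hn, H⟩ := transfer hconj hcomm hnd ht h hh
    obtain ⟨h', hh', e⟩ := H x z (Ch_sub hz)
    refine ⟨h', hh', g' * (z * ((n * t * n⁻¹) * z * (n * t * n⁻¹)⁻¹) * z⁻¹), ⟨_, ?_, g', hg', rfl⟩, ?_⟩
    · apply Ch_stab hcomm (le_NN x (Ch_sub hz))
      have h1 : (n * t * n⁻¹) * z * (n * t * n⁻¹)⁻¹ = n * (t * (n⁻¹ * z * n⁻¹⁻¹) * t⁻¹) * n⁻¹ := by
        group
      rw [h1]
      exact Ch_stab hcomm hn _ (Ch_conj hconj t x (Ch_stab hcomm ((NN L).inv_mem hn) x hz))
    · rw [e]; group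
  · rintro ⟨h, hh, g, ⟨z, hz, g', hg', rfl⟩, rfl⟩
    obtain ⟨n, hn, H⟩ := transfer hconj hcomm hnd ht h hh
    have h2 : ∀ w ∈ Ch L (t • x), (n * t * n⁻¹)⁻¹ * w * (n * t * n⁻¹) ∈ Ch L x := by
      intro w hw
      have h1 : (n * t * n⁻¹)⁻¹ * w * (n * t * n⁻¹) =
          n * (t⁻¹ * (n⁻¹ * w * n⁻¹⁻¹) * t⁻¹⁻¹) * n⁻¹ := by
        group
      rw [h1]
      have h3 := Ch_conj hconj t⁻¹ (t • x) (Ch_stab hcomm ((NN L).inv_mem hn) _ hw)
      rw [inv_smul_smul] at h3
      exact Ch_stab hcomm hn _ h3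
    obtain ⟨h', hh', e⟩ := H x _ (Ch_sub (h2 _ (Ch_inv hz)))
    refine ⟨h', hh', g' * ((n * t * n⁻¹)⁻¹ * z * (n * t * n⁻¹)), ⟨_, h2 z hz, g', hg', rfl⟩, ?_⟩
    rw [e]; group

lemma Q_one {gs : List E} {f : E} {x : X} {xs : List X}
    (h1 : ∀ a ∈ L x, ∀ b ∈ L x, a * b = b * a) :
    Q L gs f (x :: xs) ↔ Q L gs f xs := by
  constructor
  · rintro ⟨h, hh, g, ⟨z, ⟨a, ha, b, hb, rfl⟩, g', hg', rfl⟩, rfl⟩
    refine ⟨h, hh, g', hg', ?_⟩
    rw [commutatorElement_eq_one_iff_mul_comm.2 (h1 a ha b hb), mul_one]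
  · rintro ⟨h, hh, g, hg, rfl⟩
    exact ⟨h, hh, g, ⟨1, ⟨1, (L x).one_mem, 1, (L x).one_mem, by simp⟩, g, hg, by simp⟩, rfl⟩

/-- elements of the normal subgroup move only places without chips -/
lemma Q_move_NN (hconj : ∀ (g : E) (x : X) (a : E), a ∈ L x → g * a * g⁻¹ ∈ L (g • x))
    (hcomm : ∀ x y, x ≠ y → ∀ a ∈ L x, ∀ b ∈ L y, a * b = b * a)
    {gs : List E} {n : E} (hn : n ∈ NN L) {f : E} {x : X} {xs : List X} :
    Q L gs f (x :: xs) ↔ Q L gs f (n • x :: xs) := by
  by_cases hx : n • x = x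
  · rw [hx]
  · have h1 : ∀ a ∈ L x, a ∈ L (n • x) := by
      intro a ha
      have h2 := NN_stab hcomm ((NN L).inv_mem hn) x ha
      have h3 := hconj n x _ h2
      have e : n * (n⁻¹ * a * n⁻¹⁻¹) * n⁻¹ = a := by group
      rwa [e] at h3
    have h1' : ∀ a ∈ L (n • x), a ∈ L x := by
      intro a ha
      have h2 := NN_stab hcomm hn (n • x) ha
      have h3 := hconj n⁻¹ (n • x) _ h2
      rw [inv_smul_smul] at h3
      have e : n⁻¹ * (n * a * n⁻¹) * n⁻¹⁻¹ = a := by group
      rwa [e] at h3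
    rw [Q_one (L := L) (x := x) (fun a ha b hb => hcomm _ _ hx a (h1 a ha) b hb),
      Q_one (L := L) (x := n • x) (fun a ha b hb => hcomm _ _ hx a ha b (h1' b hb))]

lemma Q_move_all (hconj : ∀ (g : E) (x : X) (a : E), a ∈ L x → g * a * g⁻¹ ∈ L (g • x))
    (hcomm : ∀ x y, x ≠ y → ∀ a ∈ L x, ∀ b ∈ L y, a * b = b * a)
    {gs : List E} (hnd : gs.Nodup) (hgen : Subgroup.closure ({t | t ∈ gs} ∪ NN L) = ⊤)
    {f : E} {xs : List X}
    (g : E) : ∀ x : X, Q L gs f (x :: xs) ↔ Q L gs f (g • x :: xs) := by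
  have hg : g ∈ Subgroup.closure ({t | t ∈ gs} ∪ NN L) := by rw [hgen]; trivial
  induction hg using Subgroup.closure_induction with
  | mem t ht =>
    rcases ht with ht | ht
    · exact fun x => Q_move hconj hcomm hnd ht
    · exact fun x => Q_move_NN hconj hcomm ht
  | one => intro x; rw [one_smul]
  | mul a b _ _ iha ihb =>
    intro x
    rw [mul_smul, ihb x, iha (b • x)]
  | inv a _ ih =>
    intro x
    rw [ih (a⁻¹ • x), smul_inv_smul]

lemma Q_spread (hconj : ∀ (g : E) (x : X) (a : E), a ∈ L x → g * a * g⁻¹ ∈ L (g • x))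
    (hcomm : ∀ x y, x ≠ y → ∀ a ∈ L x, ∀ b ∈ L y, a * b = b * a)
    {gs : List E} (hnd : gs.Nodup) (hgen : Subgroup.closure ({t | t ∈ gs} ∪ NN L) = ⊤) {f : E} :
    ∀ (vs us : List X), us.Nodup → (∀ x ∈ vs, ¬ (MulAction.orbit E x).Finite) →
      Q L gs f (vs ++ us) → ∃ ws : List X, ws.Nodup ∧ Q L gs f ws := by
  classical
  intro vs
  induction vs with
  | nil => exact fun us hus _ hQ => ⟨us, hus, by simpa using hQ⟩
  | cons x vs ih =>
    intro us hus hinf hQ
    have hx : (MulAction.orbit E x).Infinite := hinf x (by simp)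
    obtain ⟨y, hy, hyu⟩ := hx.exists_notMem_finset us.toFinset
    obtain ⟨g, rfl⟩ := hy
    have h1 : Q L gs f (g • x :: (vs ++ us)) :=
      (Q_move_all hconj hcomm hnd hgen g x).1 (by simpa using hQ)
    have h2 : Q L gs f (vs ++ g • x :: us) :=
      Q_perm hcomm (List.perm_middle.symm) h1
    refine ih (g • x :: us) ?_ (fun x hx => hinf x (by simp [hx])) h2
    rw [List.nodup_cons]
    exact ⟨by simpa using hyu, hus⟩

end main

section merge

variable {L : X → Subgroup E}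

lemma comm_mul_comm {A B a b : E} (h1 : Commute A a) (h2 : Commute A b) (h3 : Commute B a)
    (h4 : Commute B b) : ⁅A, B⁆ * ⁅a, b⁆ = ⁅A * a, B * b⁆ := by
  simp only [commutatorElement_def]
  rw [h3.symm.mul_mul_mul_comm A b]
  rw [show (A * a)⁻¹ = A⁻¹ * a⁻¹ by rw [h1.eq, mul_inv_rev],
    show (B * b)⁻¹ = B⁻¹ * b⁻¹ by rw [h4.eq, mul_inv_rev]]
  have e : A * B * (a * b) * (A⁻¹ * a⁻¹) * (B⁻¹ * b⁻¹) =
      A * B * (a * b) * ((A⁻¹ * a⁻¹) * (B⁻¹ * b⁻¹)) := by group
  rw [e, (h3.symm.inv_inv).mul_mul_mul_comm A⁻¹ b⁻¹]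
  have hc : Commute (a * b) (A⁻¹ * B⁻¹) :=
    Commute.mul_left (Commute.mul_right h1.symm.inv_right h3.symm.inv_right)
      (Commute.mul_right h2.symm.inv_right h4.symm.inv_right)
  rw [hc.mul_mul_mul_comm (A * B) (a⁻¹ * b⁻¹)]
  group

/-- merging chips at different places into one commutator -/
lemma merge_one (hcomm : ∀ x y, x ≠ y → ∀ a ∈ L x, ∀ b ∈ L y, a * b = b * a) :
    ∀ (ws : List X), ws.Nodup → ∀ g, R (Ch L) ws g →
      ∃ A B : E, (∀ y, y ∉ ws → ∀ c ∈ L y, Commute A c ∧ Commute B c) ∧ g = ⁅A, B⁆ := by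
  intro ws
  induction ws with
  | nil =>
    intro _ g hg
    exact ⟨1, 1, by simp, by simpa [R] using hg⟩
  | cons x ws ih =>
    intro hnd g hg
    obtain ⟨hx, hnd'⟩ := List.nodup_cons.1 hnd
    obtain ⟨z, ⟨a, ha, b, hb, rfl⟩, g', hg', rfl⟩ := hg
    obtain ⟨A, B, hAB, rfl⟩ := ih hnd' g' hg'
    refine ⟨A * a, B * b, ?_, ?_⟩
    · intro y hy c hc
      rw [List.mem_cons, not_or] at hy
      obtain ⟨h1, h2⟩ := hAB y hy.2 c hc
      have h3 : Commute a c := (hcomm y x hy.1 c hc a ha).symm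
      have h4 : Commute b c := (hcomm y x hy.1 c hc b hb).symm
      exact ⟨h1.mul_left h3, h2.mul_left h4⟩
    · exact comm_mul_comm (hAB x hx a ha).1 (hAB x hx b hb).1 (hAB x hx a ha).2
        (hAB x hx b hb).2

lemma merge_list : ∀ l1 l2 : List (E × E), l1.length = l2.length →
    (∀ p ∈ l1, ∀ q ∈ l2, (Commute p.1 q.1 ∧ Commute p.1 q.2) ∧ (Commute p.2 q.1 ∧ Commute p.2 q.2)) →
    (l1.map fun p => ⁅p.1, p.2⁆).prod * (l2.map fun p => ⁅p.1, p.2⁆).prod =
      ((List.zipWith (fun p q => ((p.1 * q.1, p.2 * q.2) : E × E)) l1 l2).map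
        fun p => ⁅p.1, p.2⁆).prod := by
  intro l1
  induction l1 with
  | nil =>
    intro l2 hl _
    have : l2 = [] := List.eq_nil_of_length_eq_zero hl.symm
    subst this
    simp
  | cons p l1 ih =>
    intro l2 hl h
    cases l2 with
    | nil => simp at hl
    | cons q l2 =>
      have hl' : l1.length = l2.length := by simpa using hl
      have hq := h p (by simp) q (by simp)
      have h1 : Commute (l1.map fun p => ⁅p.1, p.2⁆).prod ⁅q.1, q.2⁆ := by
        apply Commute.list_prod_left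
        intro y hy
        obtain ⟨r, hr, rfl⟩ := List.mem_map.1 hy
        have hr' := h r (by simp [hr]) q (by simp)
        rw [commutatorElement_def, commutatorElement_def]
        have c1 : Commute r.1 (q.1 * q.2 * q.1⁻¹ * q.2⁻¹) :=
          ((hr'.1.1.mul_right hr'.1.2).mul_right hr'.1.1.inv_right).mul_right hr'.1.2.inv_right
        have c2 : Commute r.2 (q.1 * q.2 * q.1⁻¹ * q.2⁻¹) :=
          ((hr'.2.1.mul_right hr'.2.2).mul_right hr'.2.1.inv_right).mul_right hr'.2.2.inv_right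
        exact ((c1.mul_left c2).mul_left c1.inv_left).mul_left c2.inv_left
      rw [List.map_cons, List.prod_cons, List.map_cons, List.prod_cons,
        h1.mul_mul_mul_comm, ih l2 hl' (fun p hp q hq => h p (by simp [hp]) q (by simp [hq])),
        comm_mul_comm hq.1.1 hq.1.2 hq.2.1 hq.2.2]
      simp

/-- merging factors of bounded width at different places -/
lemma merge_all (hcomm : ∀ x y, x ≠ y → ∀ a ∈ L x, ∀ b ∈ L y, a * b = b * a) (c : ℕ) :
    ∀ (ws : List X), ws.Nodup → ∀ g, R (fun x => {w | ProdComm (L x) c w}) ws g →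
      ∃ l : List (E × E), l.length = c ∧
        (∀ p ∈ l, ∀ y, y ∉ ws → ∀ d ∈ L y, Commute p.1 d ∧ Commute p.2 d) ∧
        g = (l.map fun p => ⁅p.1, p.2⁆).prod := by
  intro ws
  induction ws with
  | nil =>
    intro _ g hg
    refine ⟨List.replicate c (1, 1), by simp, ?_, ?_⟩
    · intro p hp y _ d _
      rw [List.eq_of_mem_replicate hp]
      exact ⟨Commute.one_left d, Commute.one_left d⟩
    · have : g = 1 := hg
      simp [this]
  | cons x ws ih =>
    intro hnd g hg
    obtain ⟨hx, hnd'⟩ := List.nodup_cons.1 hnd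
    obtain ⟨z, ⟨l', hl', hm', rfl⟩, g', hg', rfl⟩ := hg
    obtain ⟨l, hl, hcl, rfl⟩ := ih hnd' g' hg'
    have hmem : ∀ p ∈ l' ++ List.replicate (c - l'.length) ((1, 1) : E × E),
        p.1 ∈ L x ∧ p.2 ∈ L x := by
      intro p hp
      rcases List.mem_append.1 hp with h | h
      · exact hm' p h
      · rw [List.eq_of_mem_replicate h]
        exact ⟨(L x).one_mem, (L x).one_mem⟩
    have hlen : l.length = (l' ++ List.replicate (c - l'.length) ((1, 1) : E × E)).length := by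
      rw [hl, List.length_append, List.length_replicate]; omega
    have hprod : ((l' ++ List.replicate (c - l'.length) ((1, 1) : E × E)).map
        fun p => ⁅p.1, p.2⁆).prod = (l'.map fun p => ⁅p.1, p.2⁆).prod := by
      simp
    generalize hl'' : l' ++ List.replicate (c - l'.length) ((1, 1) : E × E) = l'' at *
    refine ⟨List.zipWith (fun p q => ((p.1 * q.1, p.2 * q.2) : E × E)) l l'', ?_, ?_, ?_⟩
    · rw [List.length_zipWith, ← hlen, hl]; simp
    · intro r hr y hy d hd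
      rw [List.mem_cons, not_or] at hy
      have : ∃ p ∈ l, ∃ q ∈ l'', r = (p.1 * q.1, p.2 * q.2) := by
        rw [← List.map_uncurry_zip_eq_zipWith] at hr
        obtain ⟨⟨p, q⟩, hpq, rfl⟩ := List.mem_map.1 hr
        exact ⟨p, (List.of_mem_zip hpq).1, q, (List.of_mem_zip hpq).2, rfl⟩
      obtain ⟨p, hp, q, hq, rfl⟩ := this
      have h1 := hcl p hp y hy.2 d hd
      have h2 : Commute q.1 d := (hcomm y x hy.1 d hd q.1 (hmem q hq).1).symm
      have h3 : Commute q.2 d := (hcomm y x hy.1 d hd q.2 (hmem q hq).2).symm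
      exact ⟨h1.1.mul_left h2, h1.2.mul_left h3⟩
    · rw [← hprod]
      apply merge_list l l'' hlen
      intro p hp q hq
      have h1 := hcl p hp x hx q.1 (hmem q hq).1
      have h2 := hcl p hp x hx q.2 (hmem q hq).2
      exact ⟨⟨h1.1, h2.1⟩, ⟨h1.2, h2.2⟩⟩

end merge

section reduce

variable {L : X → Subgroup E}

/-- the subgroup generated by the commutators inside the factors `L x` with `P x` -/
def MM (L : X → Subgroup E) (P : X → Prop) : Subgroup E :=
  Subgroup.closure {z | ∃ x, P x ∧ z ∈ Ch L x}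

lemma MM_conj (hconj : ∀ (g : E) (x : X) (a : E), a ∈ L x → g * a * g⁻¹ ∈ L (g • x))
    {P : X → Prop} (hP : ∀ (g : E) (x : X), P x → P (g • x)) (g : E) {n : E}
    (hn : n ∈ MM L P) : g * n * g⁻¹ ∈ MM L P := by
  unfold MM at hn
  induction hn using Subgroup.closure_induction with
  | mem z hz =>
    obtain ⟨x, hx, hz⟩ := hz
    exact Subgroup.subset_closure ⟨g • x, hP g x hx, Ch_conj hconj g x hz⟩
  | one => simp
  | mul a b _ _ iha ihb =>
    have : g * (a * b) * g⁻¹ = (g * a * g⁻¹) * (g * b * g⁻¹) := by group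
    rw [this]
    exact (MM L P).mul_mem iha ihb
  | inv a _ ih =>
    have : g * a⁻¹ * g⁻¹ = (g * a * g⁻¹)⁻¹ := by group
    rw [this]
    exact (MM L P).inv_mem ih

lemma MM_normal (hconj : ∀ (g : E) (x : X) (a : E), a ∈ L x → g * a * g⁻¹ ∈ L (g • x))
    {P : X → Prop} (hP : ∀ (g : E) (x : X), P x → P (g • x)) : (MM L P).Normal :=
  ⟨fun _ hn g => MM_conj hconj hP g hn⟩

/-- elements of the normal subgroup commute modulo the commutators inside the factors -/
lemma NN_comm (hconj : ∀ (g : E) (x : X) (a : E), a ∈ L x → g * a * g⁻¹ ∈ L (g • x))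
    (hcomm : ∀ x y, x ≠ y → ∀ a ∈ L x, ∀ b ∈ L y, a * b = b * a)
    {n : E} (hn : n ∈ NN L) {n' : E} (hn' : n' ∈ NN L) :
    ⁅n, n'⁆ ∈ MM L (fun _ => True) := by
  have hN : (MM L (fun _ : X => True)).Normal := MM_normal hconj (fun _ _ h => h)
  set M := MM L (fun _ : X => True) with hM
  have key : ∀ a b : E, ⁅a, b⁆ ∈ M ↔
      (QuotientGroup.mk' M a) * (QuotientGroup.mk' M b) =
        (QuotientGroup.mk' M b) * (QuotientGroup.mk' M a) := by
    intro a b
    rw [← QuotientGroup.eq_one_iff, ← commutatorElement_eq_one_iff_mul_comm]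
    exact Iff.rfl
  rw [key]
  revert n'
  refine Subgroup.iSup_induction (C := fun n => ∀ {n' : E}, n' ∈ NN L →
    (QuotientGroup.mk' M n) * (QuotientGroup.mk' M n') =
        (QuotientGroup.mk' M n') * (QuotientGroup.mk' M n)) L hn ?_ ?_ ?_
  · intro x a ha n' hn'
    refine Subgroup.iSup_induction (C := fun n' =>
      (QuotientGroup.mk' M a) * (QuotientGroup.mk' M n') =
        (QuotientGroup.mk' M n') * (QuotientGroup.mk' M a)) L hn' ?_ ?_ ?_
    · intro y b hb
      rw [← key]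
      by_cases hxy : x = y
      · subst hxy
        exact Subgroup.subset_closure ⟨x, trivial, a, ha, b, hb, rfl⟩
      · have h1 : ⁅a, b⁆ = 1 := by
          rw [commutatorElement_eq_one_iff_mul_comm]
          exact hcomm x y hxy a ha b hb
        rw [h1]
        exact M.one_mem
    · simp
    · intro b c hb hc
      rw [map_mul, ← mul_assoc, hb, mul_assoc, hc, mul_assoc]
  · intro n' _
    simp
  · intro b c hb hc n' hn'
    rw [map_mul, mul_assoc, hc hn', ← mul_assoc, hb hn', mul_assoc]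

/-- modulo the commutators inside the factors, every element of `[N, E]` is a product of the
commutators `[h t, t]`, `t` in the generating set -/
lemma reduce (hconj : ∀ (g : E) (x : X) (a : E), a ∈ L x → g * a * g⁻¹ ∈ L (g • x))
    (hcomm : ∀ x y, x ≠ y → ∀ a ∈ L x, ∀ b ∈ L y, a * b = b * a)
    {gs : List E} (hnd : gs.Nodup) (hgen : Subgroup.closure ({t | t ∈ gs} ∪ NN L) = ⊤)
    {f : E} (hf : f ∈ ⁅NN L, (⊤ : Subgroup E)⁆) :
    ∃ h : E → E, (∀ t, h t ∈ NN L) ∧ ∃ ρ ∈ MM L (fun _ => True), f = ρ * D gs h := by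
  classical
  have hN : (MM L (fun _ : X => True)).Normal := MM_normal hconj (fun _ _ h => h)
  set M := MM L (fun _ : X => True) with hM
  set π := QuotientGroup.mk' M with hπ
  have hcm : ∀ n ∈ NN L, ∀ n' ∈ NN L, π n * π n' = π n' * π n := by
    intro n hn n' hn'
    have h1 := NN_comm hconj hcomm hn hn'
    rw [← hM, ← QuotientGroup.eq_one_iff] at h1
    rw [← commutatorElement_eq_one_iff_mul_comm]
    exact h1
  -- additivity
  have hadd : ∀ (l : List E) (h k : E → E), (∀ t, h t ∈ NN L) → (∀ t, k t ∈ NN L) →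
      π (D l h) * π (D l k) = π (D l (fun t => h t * k t)) := by
    intro l h k hh hk
    induction l with
    | nil => simp [D]
    | cons t l ih =>
      have e : ∀ k : E → E, D (t :: l) k = ⁅k t, t⁆ * D l k := fun k => by simp [D]
      rw [e, e, e, map_mul, map_mul, map_mul, ← ih]
      have h1 : π (D l h) * π ⁅k t, t⁆ = π ⁅k t, t⁆ * π (D l h) :=
        hcm _ (D_mem_NN hconj l h hh) _ (comm_mem_NN hconj (hk t) t)
      have h2 : π ⁅h t * k t, t⁆ = π ⁅h t, t⁆ * π ⁅k t, t⁆ := by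
        have e1 : ⁅h t * k t, t⁆ = h t * ⁅k t, t⁆ * (h t)⁻¹ * ⁅h t, t⁆ := by
          simp only [commutatorElement_def]; group
        rw [e1, map_mul, map_mul, map_mul, hcm _ (hh t) _ (comm_mem_NN hconj (hk t) t),
          map_inv, mul_inv_cancel_right]
        exact hcm _ (comm_mem_NN hconj (hk t) t) _ (comm_mem_NN hconj (hh t) t)
      rw [h2]
      calc π ⁅h t, t⁆ * π (D l h) * (π ⁅k t, t⁆ * π (D l k))
          = π ⁅h t, t⁆ * (π (D l h) * π ⁅k t, t⁆) * π (D l k) := by group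
        _ = π ⁅h t, t⁆ * π ⁅k t, t⁆ * (π (D l h) * π (D l k)) := by rw [h1]; group
  let T : Subgroup (E ⧸ M) :=
    { carrier := {q | ∃ h : E → E, (∀ t, h t ∈ NN L) ∧ q = π (D gs h)}
      one_mem' := ⟨fun _ => 1, fun _ => (NN L).one_mem, by simp [D]⟩
      mul_mem' := by
        rintro _ _ ⟨h, hh, rfl⟩ ⟨k, hk, rfl⟩
        exact ⟨_, fun t => (NN L).mul_mem (hh t) (hk t), hadd gs h k hh hk⟩
      inv_mem' := by
        rintro _ ⟨h, hh, rfl⟩
        refine ⟨fun t => (h t)⁻¹, fun t => (NN L).inv_mem (hh t), ?_⟩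
        rw [eq_comm, ← mul_eq_one_iff_eq_inv, hadd gs _ _ (fun t => (NN L).inv_mem (hh t)) hh]
        simp [D] }
  have hT : ∀ g : E, ∀ n ∈ NN L, π ⁅n, g⁆ ∈ T := by
    intro g
    have hg : g ∈ Subgroup.closure ({t | t ∈ gs} ∪ NN L) := by rw [hgen]; trivial
    induction hg using Subgroup.closure_induction with
    | mem t ht =>
      intro n hn
      rcases ht with ht | ht
      swap
      · have h1 := NN_comm hconj hcomm hn ht
        rw [← hM, ← QuotientGroup.eq_one_iff] at h1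
        have h2 : π ⁅n, t⁆ = 1 := h1
        rw [h2]
        exact T.one_mem
      refine ⟨Function.update (fun _ => 1) t n, ?_, ?_⟩
      · intro s
        by_cases hs : s = t
        · subst hs
          simpa using hn
        · simpa [Function.update_of_ne hs] using (NN L).one_mem
      · congr 1
        obtain ⟨l1, l2, rfl⟩ := List.append_of_mem ht
        rw [List.nodup_append] at hnd
        obtain ⟨h1, h2, h3⟩ := hnd
        have ht1 : t ∉ l1 := fun h => h3 t h t (by simp) rfl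
        have ht2 : t ∉ l2 := (List.nodup_cons.1 h2).1
        have e1 : ∀ l : List E, t ∉ l → D l (Function.update (fun _ => 1) t n) = 1 := by
          intro l hl
          unfold D
          apply List.prod_eq_one
          intro y hy
          obtain ⟨s, hs, rfl⟩ := List.mem_map.1 hy
          have : s ≠ t := fun e => hl (e ▸ hs)
          rw [Function.update_of_ne this]
          simp
        have e2 : ∀ k : E → E, D (l1 ++ t :: l2) k = D l1 k * (⁅k t, t⁆ * D l2 k) := by
          intro k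
          simp [D]
        rw [e2, e1 l1 ht1, e1 l2 ht2, Function.update_self]
        simp
    | one =>
      intro n _
      simpa using T.one_mem
    | mul a b _ _ iha ihb =>
      intro n hn
      have e : ⁅n, a * b⁆ = ⁅n, a⁆ * (⁅n, b⁆ * ⁅⁅n, b⁆⁻¹, a⁆) := by
        simp only [commutatorElement_def]; group
      rw [e, map_mul, map_mul]
      exact T.mul_mem (iha n hn) (T.mul_mem (ihb n hn)
        (iha _ ((NN L).inv_mem (comm_mem_NN hconj hn b))))
    | inv a _ ih =>
      intro n hn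
      have e : ⁅n, a⁻¹⁆ = ⁅a⁻¹ * n * a⁻¹⁻¹, a⁆⁻¹ := by
        simp only [commutatorElement_def]; group
      rw [e, map_inv]
      exact T.inv_mem (ih _ (NN_conj hconj a⁻¹ hn))
  have hle : ⁅NN L, (⊤ : Subgroup E)⁆ ≤ T.comap π := by
    rw [Subgroup.commutator_le]
    intro n hn g _
    exact hT g n hn
  obtain ⟨h, hh, e⟩ := hle hf
  refine ⟨h, hh, f * (D gs h)⁻¹, ?_, by group⟩
  rw [← QuotientGroup.eq_one_iff]
  have : π (f * (D gs h)⁻¹) = 1 := by
    rw [map_mul, map_inv, e, mul_inv_cancel]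
  exact this

end reduce

section final

variable {L : X → Subgroup E}

lemma sub_stab (hcomm : ∀ x y, x ≠ y → ∀ a ∈ L x, ∀ b ∈ L y, a * b = b * a)
    {n : E} (hn : n ∈ NN L) (x : X) {z : E} (hz : z ∈ ⁅L x, L x⁆) : n * z * n⁻¹ ∈ ⁅L x, L x⁆ := by
  rw [Subgroup.commutator_def] at hz
  induction hz using Subgroup.closure_induction with
  | mem z hz =>
    obtain ⟨a, ha, b, hb, rfl⟩ := hz
    rw [conj_comm]
    exact Subgroup.commutator_mem_commutator (NN_stab hcomm hn x ha) (NN_stab hcomm hn x hb)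
  | one => simp
  | mul a b _ _ iha ihb =>
    have : n * (a * b) * n⁻¹ = (n * a * n⁻¹) * (n * b * n⁻¹) := by group
    rw [this]
    exact Subgroup.mul_mem _ iha ihb
  | inv a _ ih =>
    have : n * a⁻¹ * n⁻¹ = (n * a * n⁻¹)⁻¹ := by group
    rw [this]
    exact Subgroup.inv_mem _ ih

lemma comm_le (x : X) : ⁅L x, L x⁆ ≤ L x := by
  rw [Subgroup.commutator_le]
  intro a ha b hb
  exact Ch_sub ⟨a, ha, b, hb, rfl⟩

/-- one more chip, collected place by place -/
lemma absorb (hcomm : ∀ x y, x ≠ y → ∀ a ∈ L x, ∀ b ∈ L y, a * b = b * a)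
    {us : List X} (hus : us.Nodup) {g : E}
    (hg : R (fun x => {w : E | w ∈ ⁅L x, L x⁆}) us g) {x : X} {z : E} (hz : z ∈ ⁅L x, L x⁆) :
    ∃ ws : List X, ws.Nodup ∧ (∀ y ∈ ws, y ∈ us ∨ y = x) ∧
      R (fun x => {w : E | w ∈ ⁅L x, L x⁆}) ws (g * z) := by
  classical
  by_cases hx : x ∈ us
  · have hp : us.Perm (x :: us.erase x) := List.perm_cons_erase hx
    have h1 := R_perm (Sg := fun x => {w : E | w ∈ ⁅L x, L x⁆}) (fun x z hz y w hw =>
      sub_stab hcomm (le_NN y (comm_le y hw)) x hz) hp g hg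
    obtain ⟨w, hw, g', hg', rfl⟩ := h1
    refine ⟨x :: us.erase x, hp.nodup_iff.1 hus, ?_, w * z, ?_, g', hg', by group⟩
    · intro y hy
      exact Or.inl (hp.symm.subset hy)
    · exact Subgroup.mul_mem _ hw hz
  · refine ⟨x :: us, List.nodup_cons.2 ⟨hx, hus⟩, ?_, z, hz, g, hg, rfl⟩
    intro y hy
    rcases List.mem_cons.1 hy with h | h
    · exact Or.inr h
    · exact Or.inl h

lemma MM_sites (hcomm : ∀ x y, x ≠ y → ∀ a ∈ L x, ∀ b ∈ L y, a * b = b * a)
    {P : X → Prop} {g : E} (hg : g ∈ MM L P) :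
    ∃ us : List X, us.Nodup ∧ (∀ y ∈ us, P y) ∧ R (fun x => {w : E | w ∈ ⁅L x, L x⁆}) us g := by
  unfold MM at hg
  induction hg using Subgroup.closure_induction_right with
  | one => exact ⟨[], List.nodup_nil, by simp, rfl⟩
  | mul_right a ha z hz ih =>
    obtain ⟨us, hus, hP, hR⟩ := ih
    obtain ⟨x, hx, a, ha, b, hb, rfl⟩ := hz
    obtain ⟨ws, hws, hsub, hR'⟩ := absorb hcomm hus hR
      (Subgroup.commutator_mem_commutator ha hb)
    refine ⟨ws, hws, ?_, hR'⟩
    intro y hy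
    rcases hsub y hy with h | h
    · exact hP y h
    · exact h ▸ hx
  | mul_inv_cancel a ha z hz ih =>
    obtain ⟨us, hus, hP, hR⟩ := ih
    obtain ⟨x, hx, a, ha, b, hb, rfl⟩ := hz
    obtain ⟨ws, hws, hsub, hR'⟩ := absorb hcomm hus hR
      (Subgroup.inv_mem _ (Subgroup.commutator_mem_commutator ha hb))
    refine ⟨ws, hws, ?_, hR'⟩
    intro y hy
    rcases hsub y hy with h | h
    · exact hP y h
    · exact h ▸ hx

lemma MM_chips {P : X → Prop} {g : E} (hg : g ∈ MM L P) :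
    ∃ vs : List X, (∀ y ∈ vs, P y) ∧ R (Ch L) vs g := by
  unfold MM at hg
  induction hg using Subgroup.closure_induction_right with
  | one => exact ⟨[], by simp, rfl⟩
  | mul_right a ha z hz ih =>
    obtain ⟨vs, hP, hR⟩ := ih
    obtain ⟨x, hx, hz⟩ := hz
    refine ⟨x :: vs, ?_, z, hz, a, hR, rfl⟩
    intro y hy
    rcases List.mem_cons.1 hy with h | h
    · exact h ▸ hx
    · exact hP y h
  | mul_inv_cancel a ha z hz ih =>
    obtain ⟨vs, hP, hR⟩ := ih
    obtain ⟨x, hx, hz⟩ := hz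
    refine ⟨x :: vs, ?_, z⁻¹, Ch_inv hz, a, hR, rfl⟩
    intro y hy
    rcases List.mem_cons.1 hy with h | h
    · exact h ▸ hx
    · exact hP y h

lemma R_mono {S₁ S₂ : X → Set E} : ∀ (xs : List X) (g : E), (∀ x ∈ xs, S₁ x ⊆ S₂ x) →
    R S₁ xs g → R S₂ xs g := by
  intro xs
  induction xs with
  | nil => exact fun g _ h => h
  | cons x xs ih =>
    rintro g hs ⟨z, hz, g', hg', rfl⟩
    exact ⟨z, hs x (by simp) hz, g', ih g' (fun y hy => hs y (by simp [hy])) hg', rfl⟩

/-- every element of `[N, E]` is a product of at most `|gs| + c + 1` commutators -/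
theorem commutator_NN (hconj : ∀ (g : E) (x : X) (a : E), a ∈ L x → g * a * g⁻¹ ∈ L (g • x))
    (hcomm : ∀ x y, x ≠ y → ∀ a ∈ L x, ∀ b ∈ L y, a * b = b * a)
    {gs : List E} (hnd : gs.Nodup) (hgen : Subgroup.closure ({t | t ∈ gs} ∪ NN L) = ⊤) (c : ℕ)
    (hc : ∀ x, (MulAction.orbit E x).Finite → ∀ g ∈ ⁅L x, L x⁆, ProdComm (L x) c g)
    {f : E} (hf : f ∈ ⁅NN L, (⊤ : Subgroup E)⁆) : ProdComm ⊤ (gs.length + c + 1) f := by
  obtain ⟨h, hh, ρ, hρ, rfl⟩ := reduce hconj hcomm hnd hgen hf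
  have hle : MM L (fun _ => True) ≤
      MM L (fun x => (MulAction.orbit E x).Finite) ⊔ MM L (fun x => ¬ (MulAction.orbit E x).Finite) := by
    unfold MM
    rw [Subgroup.closure_le]
    rintro z ⟨x, _, hz⟩
    by_cases hx : (MulAction.orbit E x).Finite
    · exact Subgroup.mem_sup_left (Subgroup.subset_closure ⟨x, hx, hz⟩)
    · exact Subgroup.mem_sup_right (Subgroup.subset_closure ⟨x, hx, hz⟩)
  have hNf : (MM L (fun x => (MulAction.orbit E x).Finite)).Normal :=
    MM_normal hconj (fun g x hx => by rwa [MulAction.orbit_smul])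
  obtain ⟨ρ₁, h₁, ρ₂, h₂, rfl⟩ := Subgroup.mem_sup_of_normal_left.1 (hle hρ)
  -- the finite orbits
  obtain ⟨us, hus, husP, hR⟩ := MM_sites hcomm h₁
  obtain ⟨l, hl, _, hlp⟩ := merge_all hcomm c us hus ρ₁
    (R_mono us ρ₁ (fun x hx w hw => hc x (husP x hx) w hw) hR)
  have hP₁ : ProdComm (⊤ : Subgroup E) c ρ₁ :=
    ⟨l, hl.le, fun p _ => ⟨trivial, trivial⟩, hlp⟩
  -- the infinite orbits
  obtain ⟨vs, hvs, hR₂⟩ := MM_chips h₂
  have hQ : Q L gs (ρ₂ * D gs h) (vs ++ []) :=
    ⟨h, hh, ρ₂, by simpa using hR₂, rfl⟩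
  obtain ⟨ws, hws, h', hh', g, hg, e⟩ :=
    Q_spread hconj hcomm hnd hgen vs [] List.nodup_nil hvs hQ
  obtain ⟨A, B, _, rfl⟩ := merge_one hcomm ws hws g hg
  have hP₂ : ProdComm (⊤ : Subgroup E) 1 ⁅A, B⁆ :=
    ⟨[(A, B)], by simp, fun p _ => ⟨trivial, trivial⟩, by simp⟩
  have hP₃ : ProdComm (⊤ : Subgroup E) gs.length (D gs h') :=
    ⟨gs.map fun t => (h' t, t), by simp, fun p _ => ⟨trivial, trivial⟩, by
      rw [List.map_map]; rfl⟩
  have := hP₁.mul (hP₂.mul hP₃)
  rw [← e, ← mul_assoc] at this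
  have e2 : gs.length + c + 1 = c + (1 + gs.length) := by omega
  rw [e2]
  exact this

end final

/-- **Theorem.** Let `E` be a group, let `L x` (`x ∈ X`) be subgroups of `E` which commute
elementwise for different `x` and which are permuted by conjugation, according to an action of `E`
on `X`, and let `N` be the subgroup generated by all `L x`.  Let `S` be a finite set such that
`S` and `N` generate `E`.  Suppose that for every `x` with a finite orbit every element
of the derived subgroup of `L x` is a product of at most `c` commutators of `L x` (nothing is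
assumed when the orbit is infinite).
If every element of the derived subgroup of `E` is, modulo `[N, E]`, a product of at most `m`
commutators, then every element of the derived subgroup of `E` is a product of at most
`m + |S| + c + 1` commutators. -/
theorem main {E X : Type*} [Group E] [MulAction E X] (S : Finset E) (L : X → Subgroup E)
    (hS : Subgroup.closure (S : Set E) ⊔ (⨆ x, L x) = ⊤)
    (hconj : ∀ (g : E) (x : X) (a : E), a ∈ L x → g * a * g⁻¹ ∈ L (g • x))
    (hcomm : ∀ x y : X, x ≠ y → ∀ a ∈ L x, ∀ b ∈ L y, a * b = b * a)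
    (c : ℕ)
    (hc : ∀ x : X, (MulAction.orbit E x).Finite → ∀ g ∈ ⁅L x, L x⁆, ProdComm (L x) c g)
    (m : ℕ)
    (hm : ∀ g ∈ commutator E, ∃ y : E, ProdComm ⊤ m y ∧ y⁻¹ * g ∈ ⁅⨆ x, L x, (⊤ : Subgroup E)⁆) :
    ∀ g ∈ commutator E, ProdComm ⊤ (m + S.card + c + 1) g := by
  intro g hg
  obtain ⟨y, hy, hyg⟩ := hm g hg
  have hgen : Subgroup.closure ({t | t ∈ S.toList} ∪ NN L) = ⊤ := by
    rw [Subgroup.closure_union, Subgroup.closure_eq]
    simpa [NN] using hS
  have h := commutator_NN hconj hcomm (gs := S.toList) S.nodup_toList hgen c hc hyg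
  have := hy.mul h
  rw [mul_inv_cancel_left, Finset.length_toList] at this
  have e : m + S.card + c + 1 = m + (S.card + c + 1) := by omega
  rw [e]
  exact this

end Pool.Agent.CC49
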